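import Pool.Agent.H10.ALG.Targets

/-!
CEN: the census (board `alg_modules`, MP_64fb07_lc).
-/

set_option autoImplicit false

namespace Pool.Agent.H39.ALG

open Pool.Agent.H10.ALG

/-! ### Point questions -/

/-- the question whether the string `z` is in the oracle -/
@[reducible] def pq (z : List Bool) : Qn where
  G := ZMod 2
  grp := inferInstance
  fin := inferInstance
  len := z.length
  c := fun y => if y = z then 1 else 0

theorem val_pq (z : List Bool) (O : Orc) :
    (pq z).val O = (if O z = true then (1 : ZMod 2) else 0) := by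
  unfold Qn.val
  have h1 : ∀ y : Fin z.length → Bool, List.ofFn y = z ↔ y = z.get := by
    intro y
    constructor
    · intro h
      have h2 : List.ofFn y = List.ofFn z.get := by rw [h, List.ofFn_get]
      exact List.ofFn_injective h2
    · rintro rfl
      exact List.ofFn_get z
  have h2 : List.ofFn z.get = z := List.ofFn_get z
  rw [Finset.sum_eq_single z.get]
  · rw [h2]
    simp
  · intro y _ hy
    have h3 : ¬ List.ofFn y = z := fun h => hy ((h1 y).1 h)
    simp [h3]
  · intro h
    exact absurd (Finset.mem_univ _) h

/-- ask for all strings of a list -/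
def ask : List (List Bool) → H10.ALG.Tree
  | [] => H10.ALG.Tree.leaf true
  | z :: l => H10.ALG.Tree.node (pq z) (fun v : ZMod 2 => if v = 1 then ask l else H10.ALG.Tree.leaf false)

theorem ask_nil : ask [] = H10.ALG.Tree.leaf true := by rw [ask]

theorem ask_cons (z : List Bool) (l : List (List Bool)) : ask (z :: l) =
    H10.ALG.Tree.node (pq z) (fun v : ZMod 2 => if v = 1 then ask l else H10.ALG.Tree.leaf false) := by rw [ask]

theorem out_ask (O : Orc) (l : List (List Bool)) :
    (ask l).out O = true ↔ ∀ z ∈ l, O z = true := by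
  induction l with
  | nil => rw [ask_nil, H10.ALG.Tree.out_leaf]; simp
  | cons z l ih =>
    rw [ask_cons, H10.ALG.Tree.out_node, val_pq]
    by_cases hz : O z = true
    · rw [if_pos hz, if_pos rfl, ih]
      simp [hz]
    · have h0 : ¬ ((0 : ZMod 2) = 1) := by decide
      rw [if_neg hz, if_neg h0, H10.ALG.Tree.out_leaf]
      simp [hz]

theorem bd_ask {T : ℕ} (hT : 1 ≤ T) (l : List (List Bool)) (h : ∀ z ∈ l, z.length ≤ T) (d : ℕ)
    (hd : l.length ≤ d) : (ask l).Bd T d := by
  induction l generalizing d with
  | nil => rw [ask_nil]; exact H10.ALG.Tree.Bd_leaf T d true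
  | cons z l ih =>
    obtain ⟨d, rfl⟩ : ∃ d', d = d' + 1 := by
      rw [List.length_cons] at hd
      exact ⟨d - 1, by omega⟩
    rw [ask_cons, H10.ALG.Tree.Bd_succ]
    refine ⟨h z List.mem_cons_self, ?_, ?_⟩
    · change Fintype.card (ZMod 2) ≤ 2 ^ T
      rw [ZMod.card]
      calc 2 = 2 ^ 1 := rfl
        _ ≤ 2 ^ T := Nat.pow_le_pow_right (by norm_num) hT
    · change ∀ v : ZMod 2, H10.ALG.Tree.Bd T d (if v = 1 then ask l else H10.ALG.Tree.leaf false)
      intro v
      split_ifs
      · refine ih (fun z hz => h z (List.mem_cons_of_mem _ hz)) d ?_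
        rw [List.length_cons] at hd
        omega
      · exact H10.ALG.Tree.Bd_leaf T d false

/-! ### Claims -/

/-- the strings which must be in the oracle for the claim `u x = o` -/
def strs {n : ℕ} (x : In n) : Option (Wi n) → List (List Bool)
  | none => []
  | some y => [false :: false :: (List.ofFn x ++ List.ofFn y),
      false :: true :: (List.ofFn x ++ List.ofFn y)]

theorem strs_none {n : ℕ} (x : In n) : strs x none = [] := by rw [strs]

theorem strs_some {n : ℕ} (x : In n) (y : Wi n) :
    strs x (some y) = [false :: false :: (List.ofFn x ++ List.ofFn y),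
      false :: true :: (List.ofFn x ++ List.ofFn y)] := by rw [strs]

/-- all strings for the claims `u` -/
noncomputable def allS {n : ℕ} (u : In n → Option (Wi n)) : List (List Bool) :=
  (Finset.univ : Finset (In n)).toList.flatMap fun x => strs x (u x)

theorem length_flat {α β : Type} (l : List α) (f : α → List β) (h : ∀ x, (f x).length ≤ 2) :
    (l.flatMap f).length ≤ 2 * l.length := by
  induction l with
  | nil => simp
  | cons a l ih =>
    rw [List.flatMap_cons, List.length_append, List.length_cons]
    have := h a
    omega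

theorem allS_length {n : ℕ} (u : In n → Option (Wi n)) : (allS u).length ≤ 2 * 2 ^ n := by
  unfold allS
  refine (length_flat _ _ fun x => ?_).trans ?_
  · rcases h : u x with _ | y
    · rw [strs_none]; simp
    · rw [strs_some]; simp
  · rw [Finset.length_toList, Finset.card_univ]
    simp [In]

theorem mem_allS {n : ℕ} (u : In n → Option (Wi n)) (z : List Bool) :
    z ∈ allS u ↔ ∃ x y, u x = some y ∧ (z = false :: false :: (List.ofFn x ++ List.ofFn y) ∨
      z = false :: true :: (List.ofFn x ++ List.ofFn y)) := by
  unfold allS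
  rw [List.mem_flatMap]
  constructor
  · rintro ⟨x, -, hx⟩
    rcases h : u x with _ | y
    · rw [h, strs_none] at hx
      simp at hx
    · rw [h, strs_some] at hx
      refine ⟨x, y, h, ?_⟩
      simpa using hx
  · rintro ⟨x, y, h, hz⟩
    refine ⟨x, Finset.mem_toList.2 (Finset.mem_univ _), ?_⟩
    rw [h, strs_some]
    simpa using hz

theorem cost_ge (n : ℕ) : 2 * 2 ^ n ≤ cost 2 n ∧ lev n ≤ cost 2 n ∧ 1 ≤ cost 2 n ∧
    (2 ^ n + 1) * 2 ^ n ≤ cost 2 n := by
  unfold cost lev
  have h0 : 1 ≤ 2 ^ n := Nat.one_le_two_pow
  have h1 : 2 ^ ((2 + 2) * (n + 1)) = 16 * ((2 ^ n) * (2 ^ n)) * ((2 ^ n) * (2 ^ n)) := by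
    rw [show (2 + 2) * (n + 1) = 4 + (n + n) + (n + n) by ring, pow_add, pow_add, pow_add]
    norm_num
  have h2 : n < 2 ^ n := Nat.lt_two_pow_self
  rw [h1]
  generalize 2 ^ n = m at *
  have h3 : m ≤ m * m := Nat.le_mul_of_pos_left m h0
  have h4 : m * m ≤ (m * m) * (m * m) := Nat.le_mul_of_pos_left _ (Nat.mul_pos h0 h0)
  have h5 : 16 * (m * m) * (m * m) = 16 * ((m * m) * (m * m)) := by ring
  have h6 : (m + 1) * m = m * m + m := by ring
  rw [h5, h6]
  refine ⟨?_, ?_, ?_, ?_⟩ <;> omega

theorem exists_dec (n : ℕ) : ∃ f : (Fin (cost 2 n) → Bool) → (In n → Option (Wi n)),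
    Function.Surjective f := by
  have h1 : Fintype.card (In n → Option (Wi n)) ≤ Fintype.card (Fin (cost 2 n) → Bool) := by
    have e1 : Fintype.card (In n → Option (Wi n)) = (2 ^ 2 ^ n + 1) ^ 2 ^ n := by
      simp [In, Wi]
    have e2 : Fintype.card (Fin (cost 2 n) → Bool) = 2 ^ cost 2 n := by simp
    rw [e1, e2]
    calc (2 ^ 2 ^ n + 1) ^ 2 ^ n ≤ (2 ^ (2 ^ n + 1)) ^ 2 ^ n := by
          refine Nat.pow_le_pow_left ?_ _
          rw [pow_succ]
          have : 1 ≤ 2 ^ 2 ^ n := Nat.one_le_two_pow
          omega
      _ = 2 ^ ((2 ^ n + 1) * 2 ^ n) := (pow_mul _ _ _).symm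
      _ ≤ 2 ^ cost 2 n := Nat.pow_le_pow_right (by norm_num) (cost_ge n).2.2.2
  obtain ⟨e⟩ := Function.Embedding.nonempty_of_card_le h1
  have : Nonempty (In n → Option (Wi n)) := ⟨fun _ => none⟩
  exact ⟨Function.invFun e, (Function.leftInverse_invFun e.injective).surjective⟩

/-- decoding of the messages -/
noncomputable def dec (n : ℕ) : (Fin (cost 2 n) → Bool) → (In n → Option (Wi n)) :=
  Classical.choose (exists_dec n)

theorem dec_surj (n : ℕ) : Function.Surjective (dec n) := Classical.choose_spec (exists_dec n)

open Classical in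
/-- the machine -/
noncomputable def CC (a : ℕ) (x w : List Bool) : H10.ALG.Tree :=
  if dec x.length (fun i => w.getD i false) x.get = none ∧
      (Finset.univ.filter fun x' : In x.length =>
        dec x.length (fun i => w.getD i false) x' ≠ none).card = a then
    ask (allS (dec x.length fun i => w.getD i false)) else H10.ALG.Tree.leaf false

theorem wit_iff {n : ℕ} (O : Orc) (x : In n) (y : Wi n) : Wit O (List.ofFn x) (List.ofFn y) ↔
    O (false :: false :: (List.ofFn x ++ List.ofFn y)) = true ∧
    O (false :: true :: (List.ofFn x ++ List.ofFn y)) = true := by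
  unfold Wit
  simp

theorem lang_iff {n : ℕ} (O : Orc) (x : In n) : lang O (List.ofFn x) ↔
    ∃ y : Wi n, Wit O (List.ofFn x) (List.ofFn y) := by
  constructor
  · rintro ⟨y, hy⟩
    have h1 : y.length = 2 ^ n := by
      have := hy.1
      rwa [List.length_ofFn] at this
    refine ⟨fun i => y.get (i.cast h1.symm), ?_⟩
    have h2 : List.ofFn (fun i : Fin (2 ^ n) => y.get (i.cast h1.symm)) = y := by
      refine List.ext_get ?_ ?_
      · rw [List.length_ofFn, h1]
      · intro k h3 h4
        simp
    rw [h2]
    exact hy
  · rintro ⟨y, hy⟩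
    exact ⟨_, hy⟩

theorem out_CC (O : Orc) (a : ℕ) (x w : List Bool) : (CC a x w).out O = true ↔
    dec x.length (fun i => w.getD i false) x.get = none ∧
      (Finset.univ.filter fun x' : In x.length =>
        dec x.length (fun i => w.getD i false) x' ≠ none).card = a ∧
      ∀ x' y', dec x.length (fun i => w.getD i false) x' = some y' →
        Wit O (List.ofFn x') (List.ofFn y') := by
  classical
  unfold CC
  by_cases h : dec x.length (fun i => w.getD i false) x.get = none ∧
      (Finset.univ.filter fun x' : In x.length =>
        dec x.length (fun i => w.getD i false) x' ≠ none).card = a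
  · have e : (∀ z ∈ allS (dec x.length fun i => w.getD i false), O z = true) ↔
        ∀ x' y', dec x.length (fun i => w.getD i false) x' = some y' →
        Wit O (List.ofFn x') (List.ofFn y') := by
      constructor
      · intro h1 x' y' h2
        rw [wit_iff]
        exact ⟨h1 _ ((mem_allS _ _).2 ⟨x', y', h2, Or.inl rfl⟩),
          h1 _ ((mem_allS _ _).2 ⟨x', y', h2, Or.inr rfl⟩)⟩
      · intro h1 z hz
        obtain ⟨x', y', h2, h3⟩ := (mem_allS _ _).1 hz
        have h4 := (wit_iff O x' y').1 (h1 x' y' h2)
        rcases h3 with rfl | rfl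
        · exact h4.1
        · exact h4.2
    rw [if_pos h]
    constructor
    · intro h1
      exact ⟨h.1, h.2, e.1 ((out_ask O _).1 h1)⟩
    · rintro ⟨-, -, h3⟩
      exact (out_ask O _).2 (e.2 h3)
  · rw [if_neg h, H10.ALG.Tree.out_leaf]
    constructor
    · intro h1
      exact absurd h1 Bool.false_ne_true
    · rintro ⟨h1, h2, -⟩
      exact absurd ⟨h1, h2⟩ h

theorem pf_CEN : T_CEN := by
  classical
  refine ⟨CC, ?_, ?_⟩
  · intro a x w
    unfold CC
    split_ifs
    · refine bd_ask (cost_ge _).2.2.1 _ ?_ _ ((allS_length _).trans (cost_ge _).1)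
      intro z hz
      obtain ⟨x', y', -, h3⟩ := (mem_allS _ _).1 hz
      have h4 := (cost_ge x.length).2.1
      unfold lev at h4
      rcases h3 with rfl | rfl
      · simp only [List.length_cons, List.length_append, List.length_ofFn]
        omega
      · simp only [List.length_cons, List.length_append, List.length_ofFn]
        omega
    · exact H10.ALG.Tree.Bd_leaf _ _ _
  · intro O n
    refine ⟨(Finset.univ.filter fun x' : In n => lang O (List.ofFn x')).card, ?_, ?_⟩
    · refine (Finset.card_filter_le _ _).trans ?_
      rw [Finset.card_univ]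
      simp [In]
    · intro x hx
      subst hx
      have hxx : List.ofFn x.get = x := List.ofFn_get x
      have hget : ∀ w : Fin (cost 2 x.length) → Bool,
          (fun i : Fin (cost 2 x.length) => (List.ofFn w).getD i false) = w := by
        intro w
        funext i
        rw [List.getD_eq_getElem _ _ (by rw [List.length_ofFn]; exact i.2)]
        simp
      constructor
      · intro hl
        have hU : ∃ U : In x.length → Option (Wi x.length),
            (∀ x', U x' = none ↔ ¬ ∃ y : Wi x.length, Wit O (List.ofFn x') (List.ofFn y)) ∧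
            ∀ x' y', U x' = some y' → Wit O (List.ofFn x') (List.ofFn y') := by
          refine ⟨fun x' => if h : ∃ y : Wi x.length, Wit O (List.ofFn x') (List.ofFn y) then
            some (Classical.choose h) else none, fun x' => ?_, fun x' y' => ?_⟩
          · by_cases h : ∃ y : Wi x.length, Wit O (List.ofFn x') (List.ofFn y)
            · beta_reduce
              rw [dif_pos h]
              exact ⟨fun h1 => absurd h1 (Option.some_ne_none _), fun h1 => absurd h h1⟩
            · beta_reduce
              rw [dif_neg h]
              exact ⟨fun _ => h, fun _ => rfl⟩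
          · by_cases h : ∃ y : Wi x.length, Wit O (List.ofFn x') (List.ofFn y)
            · simp only [dif_pos h]
              intro h1
              have h2 : Classical.choose h = y' := Option.some_injective _ h1
              rw [← h2]
              exact Classical.choose_spec h
            · simp only [dif_neg h]
              intro h1
              exact absurd h1.symm (Option.some_ne_none _)
        obtain ⟨U, hU1, hU2⟩ := hU
        obtain ⟨w, hw⟩ := dec_surj x.length U
        refine ⟨w, ?_⟩
        rw [out_CC, hget w, hw]
        refine ⟨?_, ?_, hU2⟩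
        · rw [hU1, ← lang_iff, hxx]
          exact hl
        · refine congrArg Finset.card (Finset.filter_congr fun x' _ => ?_)
          rw [lang_iff, ne_eq, hU1, not_not]
      · rintro ⟨w, hw⟩ hl
        rw [out_CC, hget w] at hw
        obtain ⟨h1, h2, h3⟩ := hw
        have hsub : (Finset.univ.filter fun x' : In x.length => dec x.length w x' ≠ none) ⊆
            Finset.univ.filter fun x' : In x.length => lang O (List.ofFn x') := by
          intro x' hx'
          rw [Finset.mem_filter] at hx' ⊢
          refine ⟨hx'.1, (lang_iff O x').2 ?_⟩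
          obtain ⟨y', hy'⟩ := Option.ne_none_iff_exists'.1 hx'.2
          exact ⟨y', h3 x' y' hy'⟩
        have heq := Finset.eq_of_subset_of_card_le hsub (le_of_eq h2.symm)
        have h4 : x.get ∈ Finset.univ.filter fun x' : In x.length => lang O (List.ofFn x') := by
          rw [Finset.mem_filter]
          refine ⟨Finset.mem_univ _, ?_⟩
          rw [hxx]
          exact hl
        rw [← heq, Finset.mem_filter] at h4
        exact h4.2 h1

end Pool.Agent.H39.ALG
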