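import Pool.Agent.H10.ALG.Targets

/-!
SMP: operations with combinations of rectangles (board `alg_modules`, MP_64fb07_lc).
-/

set_option autoImplicit false

namespace Pool.Agent.H39.ALG

open Pool.Agent.H10.ALG

variable {X B : Type} [Fintype X] [DecidableEq X] [Fintype B] [DecidableEq B]

omit [Fintype X] [DecidableEq X] [Fintype B] [DecidableEq B] in
theorem simp_one : Simp (X := X) (B := B) 1 (fun _ => 1) :=
  ⟨Unit, inferInstance, fun _ => 1, fun _ _ => True, fun _ _ => True, fun _ => zero_le_one,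
    by simp, fun S => by simp⟩

omit [Fintype X] [DecidableEq X] [Fintype B] [DecidableEq B] in
theorem simp_zero : Simp (X := X) (B := B) 0 (fun _ => 0) :=
  ⟨Empty, inferInstance, fun _ => 0, fun _ _ => True, fun _ _ => True, fun _ => le_rfl,
    by simp, fun S => by simp⟩

omit [Fintype X] [DecidableEq X] [Fintype B] [DecidableEq B] in
theorem simp_rect (P Q : (X → Finset B) → Prop) (f : Cf X B → ℝ)
    (h : ∀ S, (P (fun x => (S x).1) ∧ Q (fun x => (S x).2) → f S = 1) ∧
      (¬ (P (fun x => (S x).1) ∧ Q (fun x => (S x).2)) → f S = 0)) : Simp 1 f := by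
  refine ⟨Unit, inferInstance, fun _ => 1, fun _ => P, fun _ => Q, fun _ => zero_le_one,
    by simp, fun S => ?_⟩
  by_cases hS : P (fun x => (S x).1) ∧ Q (fun x => (S x).2)
  · rw [(h S).1 hS, Fintype.sum_unique, if_pos hS, mul_one]
  · rw [(h S).2 hS, Fintype.sum_unique, if_neg hS, mul_zero]

omit [Fintype X] [DecidableEq X] [Fintype B] [DecidableEq B] in
theorem simp_add (N M : ℝ) (f h : Cf X B → ℝ) (hf : Simp N f) (hh : Simp M h) :
    Simp (N + M) (fun S => f S + h S) := by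
  obtain ⟨ι, _, w, P, Q, hw, hN, hfS⟩ := hf
  obtain ⟨ι', _, w', P', Q', hw', hM, hhS⟩ := hh
  refine ⟨ι ⊕ ι', inferInstance, Sum.elim w w', Sum.elim P P', Sum.elim Q Q', ?_, ?_, ?_⟩
  · rintro (t | t)
    · exact hw t
    · exact hw' t
  · rw [Fintype.sum_sum_type]
    simp only [Sum.elim_inl, Sum.elim_inr]
    exact add_le_add hN hM
  · intro S
    rw [Fintype.sum_sum_type]
    simp only [Sum.elim_inl, Sum.elim_inr]
    rw [hfS S, hhS S]
    have e1 : ∀ (p : Prop) (i₁ i₂ : Decidable p), (@ite ℝ p i₁ 1 0) = @ite ℝ p i₂ 1 0 := by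
      intro p i₁ i₂
      by_cases hp : p
      · rw [if_pos hp, if_pos hp]
      · rw [if_neg hp, if_neg hp]
    refine congrArg₂ (· + ·) (Finset.sum_congr rfl fun t _ => ?_)
      (Finset.sum_congr rfl fun t _ => ?_)
    · exact congrArg (w t * ·) (e1 _ _ _)
    · exact congrArg (w' t * ·) (e1 _ _ _)

omit [Fintype X] [DecidableEq X] [Fintype B] [DecidableEq B] in
theorem simp_mul (N M : ℝ) (f h : Cf X B → ℝ) (hf : Simp N f) (hh : Simp M h) :
    Simp (N * M) (fun S => f S * h S) := by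
  obtain ⟨ι, _, w, P, Q, hw, hN, hfS⟩ := hf
  obtain ⟨ι', _, w', P', Q', hw', hM, hhS⟩ := hh
  refine ⟨ι × ι', inferInstance, fun t => w t.1 * w' t.2,
    fun t A => P t.1 A ∧ P' t.2 A, fun t A => Q t.1 A ∧ Q' t.2 A, ?_, ?_, ?_⟩
  · exact fun t => mul_nonneg (hw _) (hw' _)
  · rw [Fintype.sum_prod_type, ← Finset.sum_mul_sum]
    have h1 : 0 ≤ ∑ t, w t := Finset.sum_nonneg fun t _ => hw t
    have h2 : 0 ≤ ∑ t, w' t := Finset.sum_nonneg fun t _ => hw' t
    exact mul_le_mul hN hM h2 (h1.trans hN)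
  · intro S
    change f S * h S = _
    rw [hfS S, hhS S, Fintype.sum_prod_type, Finset.sum_mul_sum]
    refine Finset.sum_congr rfl fun t _ => Finset.sum_congr rfl fun t' _ => ?_
    by_cases h1 : P t (fun x => (S x).1) ∧ Q t (fun x => (S x).2)
    · by_cases h2 : P' t' (fun x => (S x).1) ∧ Q' t' (fun x => (S x).2)
      · rw [if_pos h1, if_pos h2, if_pos ⟨⟨h1.1, h2.1⟩, ⟨h1.2, h2.2⟩⟩]
        ring
      · have h3 : ¬ ((P t (fun x => (S x).1) ∧ P' t' (fun x => (S x).1)) ∧
            (Q t (fun x => (S x).2) ∧ Q' t' (fun x => (S x).2))) :=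
          fun h3 => h2 ⟨h3.1.2, h3.2.2⟩
        rw [if_neg h2, if_neg h3]
        ring
    · have h3 : ¬ ((P t (fun x => (S x).1) ∧ P' t' (fun x => (S x).1)) ∧
          (Q t (fun x => (S x).2) ∧ Q' t' (fun x => (S x).2))) :=
        fun h3 => h1 ⟨h3.1.1, h3.2.1⟩
      rw [if_neg h1, if_neg h3]
      ring

omit [Fintype X] [DecidableEq X] [Fintype B] [DecidableEq B] in
theorem simp_smul (c N : ℝ) (f : Cf X B → ℝ) (hc : 0 ≤ c) (hf : Simp N f) :
    Simp (c * N) (fun S => c * f S) := by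
  obtain ⟨ι, _, w, P, Q, hw, hN, hfS⟩ := hf
  refine ⟨ι, inferInstance, fun t => c * w t, P, Q, fun t => mul_nonneg hc (hw t), ?_, ?_⟩
  · rw [← Finset.mul_sum]
    exact mul_le_mul_of_nonneg_left hN hc
  · intro S
    change c * f S = _
    rw [hfS S, Finset.mul_sum]
    exact Finset.sum_congr rfl fun t _ => (mul_assoc _ _ _).symm

omit [Fintype X] [DecidableEq X] [Fintype B] [DecidableEq B] in
theorem simp_sum (ι : Type) (s : Finset ι) (N : ι → ℝ) (f : ι → Cf X B → ℝ)
    (h : ∀ i ∈ s, Simp (N i) (f i)) : Simp (∑ i ∈ s, N i) (fun S => ∑ i ∈ s, f i S) := by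
  classical
  induction s using Finset.induction_on with
  | empty =>
    simp only [Finset.sum_empty]
    exact simp_zero
  | insert a s ha ih =>
    simp only [Finset.sum_insert ha]
    exact simp_add _ _ _ _ (h a (Finset.mem_insert_self _ _))
      (ih fun i hi => h i (Finset.mem_insert_of_mem hi))

omit [Fintype X] [DecidableEq X] [Fintype B] [DecidableEq B] in
theorem simp_mono (N M : ℝ) (f : Cf X B → ℝ) (h : N ≤ M) (hf : Simp N f) : Simp M f := by
  obtain ⟨ι, i1, w, P, Q, hw, hN, hfS⟩ := hf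
  exact ⟨ι, i1, w, P, Q, hw, hN.trans h, hfS⟩

omit [Fintype X] [DecidableEq X] [Fintype B] [DecidableEq B] in
theorem simp_nonneg (N : ℝ) (f : Cf X B → ℝ) (hf : Simp N f) : 0 ≤ N ∧ ∀ S, 0 ≤ f S := by
  obtain ⟨ι, i1, w, P, Q, hw, hN, hfS⟩ := hf
  refine ⟨(Finset.sum_nonneg fun t _ => hw t).trans hN, fun S => ?_⟩
  rw [hfS S]
  refine Finset.sum_nonneg fun t _ => mul_nonneg (hw t) ?_
  split_ifs
  · exact zero_le_one
  · exact le_rfl

theorem pf_SMP : T_SMP := by
  intro X B _ _ _ _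
  exact ⟨simp_one, simp_zero, simp_rect, simp_add, simp_mul, simp_smul, simp_sum, simp_mono,
    simp_nonneg⟩

end Pool.Agent.H39.ALG
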